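import Mathlib

/-!
# The lower bound `a_n ≥ ⌊log n⌋ - 1` fails

For `n = 99577` there are exactly `8` triples, so `a_n = 9`, while `⌊log n⌋ = 11`.
-/

namespace Pool.Agent.Results.MP_b2f6ce_nt.LogBoundFails

/-- The triples `(â, q̂, p)` with `â ≥ 1`, `q̂ ≥ 1`, `p ≥ 0` and `n = 2 p q̂ â + â q̂ + q̂ + p`. -/
def solutions (n : ℕ) : Set (ℕ × ℕ × ℕ) :=
  {t | 1 ≤ t.1 ∧ 1 ≤ t.2.1 ∧ n = 2 * t.2.2 * t.2.1 * t.1 + t.1 * t.2.1 + t.2.1 + t.2.2}

/-- `a_n = N(n) + 1`, where `N(n)` is the number of triples in `solutions n`. -/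
noncomputable def aSeq (n : ℕ) : ℕ := (solutions n).ncard + 1

def sols : List (ℕ × ℕ × ℕ) :=
  [(99576, 1, 0), (9, 6, 913), (655, 8, 9), (1229, 27, 1), (17, 30, 97), (307, 108, 1),
    (4, 314, 39), (1, 24894, 1)]

def checkA : Bool :=
  (List.range 2150).all fun a' => (List.range (2150 / (a' + 1))).all fun q' =>
    (199155 - 2 * (q' + 1)) % (2 * (a' + 1) * (q' + 1) + 1) != 0 ||
      sols.contains (a' + 1, q' + 1,
        ((199155 - 2 * (q' + 1)) / (2 * (a' + 1) * (q' + 1) + 1)) / 2)

def checkB : Bool :=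
  (List.range 1075).all fun p => (List.range (2150 / (2 * p + 1))).all fun a' =>
    (99577 - p) % ((a' + 1) * (2 * p + 1) + 1) != 0 ||
      sols.contains (a' + 1, (99577 - p) / ((a' + 1) * (2 * p + 1) + 1), p)

def checkC : Bool :=
  (List.range 1075).all fun p => (List.range (2150 / (2 * p + 1))).all fun q' =>
    (99577 - p - (q' + 1)) % ((q' + 1) * (2 * p + 1)) != 0 ||
      sols.contains ((99577 - p - (q' + 1)) / ((q' + 1) * (2 * p + 1)), q' + 1, p)

lemma checkA_true : checkA = true := by decide +kernel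
lemma checkB_true : checkB = true := by decide +kernel
lemma checkC_true : checkC = true := by decide +kernel

lemma mem_sols {a q p : ℕ} (ha : 1 ≤ a) (hq : 1 ≤ q)
    (h : 99577 = 2 * p * q * a + a * q + q + p) : (a, q, p) ∈ sols := by
  have hn : a * q * (2 * p + 1) + q + p = 99577 := by rw [h]; ring
  by_cases hA : a * q ≤ 2150
  · have hc := checkA_true
    unfold checkA at hc
    rw [List.all_eq_true] at hc
    have h1 := hc (a - 1) (by
      rw [List.mem_range]
      have : a * 1 ≤ a * q := Nat.mul_le_mul_left a hq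
      omega)
    rw [List.all_eq_true] at h1
    have h2 := h1 (q - 1) (by
      rw [List.mem_range, Nat.sub_add_cancel ha]
      have : q ≤ 2150 / a := by
        rw [Nat.le_div_iff_mul_le (by omega)]
        rw [mul_comm]; exact hA
      omega)
    rw [Nat.sub_add_cancel ha, Nat.sub_add_cancel hq] at h2
    have h3 : 199155 - 2 * q = (2 * p + 1) * (2 * a * q + 1) := by
      have : (2 * p + 1) * (2 * a * q + 1) + 2 * q = 199155 := by
        have : (2 * p + 1) * (2 * a * q + 1) + 2 * q = 2 * (a * q * (2 * p + 1) + q + p) + 1 := by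
          ring
        rw [this, hn]
      omega
    rw [h3, Nat.mul_mod_left, Nat.mul_div_cancel _ (by positivity)] at h2
    have h4 : (2 * p + 1) / 2 = p := by omega
    rw [h4] at h2
    simpa using h2
  by_cases hB : a * (2 * p + 1) ≤ 2150
  · have hc := checkB_true
    unfold checkB at hc
    rw [List.all_eq_true] at hc
    have h1 := hc p (by
      rw [List.mem_range]
      have : 1 * (2 * p + 1) ≤ a * (2 * p + 1) := Nat.mul_le_mul_right _ ha
      omega)
    rw [List.all_eq_true] at h1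
    have h2 := h1 (a - 1) (by
      rw [List.mem_range]
      have : a ≤ 2150 / (2 * p + 1) := by
        rw [Nat.le_div_iff_mul_le (by omega)]
        exact hB
      omega)
    rw [Nat.sub_add_cancel ha] at h2
    have h3 : 99577 - p = q * (a * (2 * p + 1) + 1) := by
      have : q * (a * (2 * p + 1) + 1) + p = 99577 := by rw [← hn]; ring
      omega
    rw [h3, Nat.mul_mod_left, Nat.mul_div_cancel _ (by positivity)] at h2
    simpa using h2
  · have hC : q * (2 * p + 1) ≤ 2150 := by
      by_contra hC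
      push Not at hA hB hC
      have h1 : 2151 * 2151 * 2151 ≤ (a * q) * (a * (2 * p + 1)) * (q * (2 * p + 1)) :=
        Nat.mul_le_mul (Nat.mul_le_mul hA hB) hC
      have h2 : (a * q) * (a * (2 * p + 1)) * (q * (2 * p + 1)) =
          (a * q * (2 * p + 1)) * (a * q * (2 * p + 1)) := by ring
      have h3 : a * q * (2 * p + 1) ≤ 99577 := by omega
      have h4 := Nat.mul_le_mul h3 h3
      rw [← h2] at h4
      omega
    have hc := checkC_true
    unfold checkC at hc
    rw [List.all_eq_true] at hc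
    have h1 := hc p (by
      rw [List.mem_range]
      have : 1 * (2 * p + 1) ≤ q * (2 * p + 1) := Nat.mul_le_mul_right _ hq
      omega)
    rw [List.all_eq_true] at h1
    have h2 := h1 (q - 1) (by
      rw [List.mem_range]
      have : q ≤ 2150 / (2 * p + 1) := by
        rw [Nat.le_div_iff_mul_le (by omega)]
        exact hC
      omega)
    rw [Nat.sub_add_cancel hq] at h2
    have h3 : 99577 - p - q = a * (q * (2 * p + 1)) := by
      have : a * (q * (2 * p + 1)) + q + p = 99577 := by rw [← hn]; ring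
      omega
    have hpos : 0 < q * (2 * p + 1) := by positivity
    rw [h3, Nat.mul_mod_left, Nat.mul_div_cancel _ hpos] at h2
    simpa using h2

lemma solutions_eq : solutions 99577 = (sols.toFinset : Set (ℕ × ℕ × ℕ)) := by
  ext ⟨a, q, p⟩
  simp only [List.coe_toFinset, Set.mem_ofPred_eq]
  constructor
  · rintro ⟨ha, hq, h⟩
    exact mem_sols ha hq h
  · intro h
    simp only [sols, List.mem_cons, Prod.mk.injEq, List.not_mem_nil, or_false] at h
    rcases h with ⟨rfl, rfl, rfl⟩ | ⟨rfl, rfl, rfl⟩ | ⟨rfl, rfl, rfl⟩ | ⟨rfl, rfl, rfl⟩ |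
      ⟨rfl, rfl, rfl⟩ | ⟨rfl, rfl, rfl⟩ | ⟨rfl, rfl, rfl⟩ | ⟨rfl, rfl, rfl⟩ <;>
    simp [solutions]

/-- Some `n ≥ 1` has `a_n ≤ ⌊log n⌋ - 2`. -/
theorem result : ∃ n : ℕ, 1 ≤ n ∧ (solutions n).Finite ∧
    (aSeq n : ℤ) ≤ ⌊Real.log n⌋ - 2 := by
  refine ⟨99577, by norm_num, ?_, ?_⟩
  · rw [solutions_eq]
    exact Finset.finite_toSet _
  · have h1 : aSeq 99577 = 9 := by
      unfold aSeq
      rw [solutions_eq, Set.ncard_coe_finset]
      decide
    have h2 : (11 : ℤ) ≤ ⌊Real.log ((99577 : ℕ) : ℝ)⌋ := by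
      rw [Int.le_floor]
      push_cast
      rw [Real.le_log_iff_exp_le (by norm_num)]
      have h3 : Real.exp 11 = Real.exp 1 ^ 11 := by
        rw [← Real.exp_nat_mul]; norm_num
      rw [h3]
      have h4 : Real.exp 1 < 2.7182818286 := Real.exp_one_lt_d9
      calc Real.exp 1 ^ 11 ≤ 2.7182818286 ^ 11 :=
            pow_le_pow_left₀ (Real.exp_pos 1).le h4.le 11
        _ ≤ 99577 := by norm_num
    rw [h1]
    push_cast at h2 ⊢
    linarith

end Pool.Agent.Results.MP_b2f6ce_nt.LogBoundFails
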